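import Mathlib

/-!
CR-14: a perfect set of points in pairwise different orbits (Cantor scheme).
-/

set_option autoImplicit false
set_option linter.unusedSectionVars false

open Set Topology Filter TopologicalSpace

namespace Pool.Agent.Helper64.CR

/-- Number of the node reached by a binary sequence at a level. -/
def node (a : ℕ → Bool) : ℕ → ℕ
  | 0 => 0
  | n + 1 => 2 * node a n + (if a n then 1 else 0)

theorem node_lt (a : ℕ → Bool) (n : ℕ) : node a n < 2 ^ n := by
  induction n with
  | zero => simp [node]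
  | succ n ih =>
    rw [node, pow_succ]
    split_ifs <;> omega

theorem node_half (a : ℕ → Bool) (n : ℕ) : node a (n + 1) / 2 = node a n := by
  rw [node]
  split_ifs <;> omega

theorem node_congr (a b : ℕ → Bool) (n : ℕ) (h : ∀ i < n, a i = b i) : node a n = node b n := by
  induction n with
  | zero => rfl
  | succ n ih =>
    rw [node, node, ih (fun i hi => h i (by omega)), h n (by omega)]

theorem node_inj (a b : ℕ → Bool) (n : ℕ) (h : node a n = node b n) : ∀ i < n, a i = b i := by
  induction n with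
  | zero => intro i hi; omega
  | succ n ih =>
    rw [node, node] at h
    have h1 : node a n = node b n := by
      split_ifs at h <;> omega
    have h2 : a n = b n := by
      cases ha : a n <;> cases hb : b n <;> simp [ha, hb, h1] at h ⊢
    intro i hi
    rcases Nat.lt_succ_iff_lt_or_eq.mp hi with h3 | h3
    · exact ih h1 i h3
    · rw [h3]; exact h2

section
variable {K : Type} [MetricSpace K] [CompactSpace K]

theorem condensation [Uncountable K] : ∃ W : Set K, W.Countable ∧ Wᶜ.Nonempty ∧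
    ∀ x ∉ W, ∀ U : Set K, IsOpen U → x ∈ U → ¬ (U ∩ Wᶜ).Countable := by
  classical
  let W : Set K := ⋃₀ {b ∈ countableBasis K | b.Countable}
  have hW : W.Countable := by
    apply Set.Countable.sUnion
    · exact (countable_countableBasis K).mono (fun b hb => hb.1)
    · intro b hb; exact hb.2
  refine ⟨W, hW, ?_, ?_⟩
  · by_contra hne
    rw [Set.not_nonempty_iff_eq_empty, Set.compl_empty_iff] at hne
    rw [hne] at hW
    exact Set.not_countable_univ hW
  · intro x hx U hU hxU hc
    obtain ⟨b, hb, hxb, hbU⟩ := (isBasis_countableBasis K).exists_subset_of_mem_open hxU hU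
    apply hx
    refine Set.mem_sUnion.mpr ⟨b, ⟨hb, ?_⟩, hxb⟩
    refine (hc.union hW).mono ?_
    intro y hy
    by_cases hyW : y ∈ W
    · exact Or.inr hyW
    · exact Or.inl ⟨hbU hy, hyW⟩

variable {Γ : Type} [Group Γ] [Countable Γ] [MulAction Γ K] [ContinuousConstSMul Γ K]

theorem choose_points [Nonempty K] (S : ℕ → Set K) (N : ℕ) (hS : ∀ k < N, ¬ (S k).Countable) :
    ∃ x : ℕ → K, ∀ k < N, x k ∈ S k ∧ ∀ m < k, x k ∉ MulAction.orbit Γ (x m) := by
  classical
  induction N with
  | zero => exact ⟨fun _ => Classical.arbitrary K, fun k hk => absurd hk (Nat.not_lt_zero k)⟩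
  | succ N ih =>
    obtain ⟨x, hx⟩ := ih (fun k hk => hS k (by omega))
    have hc : (⋃ m ∈ Set.Iio N, MulAction.orbit Γ (x m)).Countable := by
      refine Set.Countable.biUnion (Set.to_countable _) (fun m _ => ?_)
      exact Set.countable_range _
    have hne : ∃ y ∈ S N, y ∉ (⋃ m ∈ Set.Iio N, MulAction.orbit Γ (x m)) := by
      by_contra hcon
      push Not at hcon
      exact hS N (by omega) (hc.mono hcon)
    obtain ⟨y, hy, hy2⟩ := hne
    refine ⟨Function.update x N y, ?_⟩
    intro k hk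
    rcases Nat.lt_succ_iff_lt_or_eq.mp hk with h3 | h3
    · refine ⟨?_, ?_⟩
      · rw [Function.update_of_ne (by omega)]
        exact (hx k h3).1
      · intro m hm
        rw [Function.update_of_ne (by omega), Function.update_of_ne (by omega)]
        exact (hx k h3).2 m hm
    · subst h3
      refine ⟨by rw [Function.update_self]; exact hy, ?_⟩
      intro m hm
      rw [Function.update_self, Function.update_of_ne (by omega)]
      intro hmem
      exact hy2 (Set.mem_iUnion₂.mpr ⟨m, hm, hmem⟩)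

theorem sep_radius (g : Γ) (a b : K) (hab : g • a ≠ b) :
    ∀ᶠ r in 𝓝[>] (0 : ℝ), ∀ y ∈ Metric.closedBall a r, ∀ z ∈ Metric.closedBall b r, g • y ≠ z := by
  have hD : 0 < dist (g • a) b := dist_pos.mpr hab
  have hcont : ContinuousAt (fun y : K => g • y) a := (continuous_const_smul g).continuousAt
  obtain ⟨δ, hδ, hδ2⟩ := Metric.continuousAt_iff.mp hcont (dist (g • a) b / 2) (by linarith)
  have hmin : 0 < min δ (dist (g • a) b / 2) := lt_min hδ (by linarith)
  filter_upwards [Ioo_mem_nhdsGT hmin] with r hr y hy z hz heq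
  have hr1 : r < δ := lt_of_lt_of_le hr.2 (min_le_left _ _)
  have hr2 : r < dist (g • a) b / 2 := lt_of_lt_of_le hr.2 (min_le_right _ _)
  have h1 : dist (g • y) (g • a) < dist (g • a) b / 2 :=
    hδ2 (lt_of_le_of_lt (Metric.mem_closedBall.mp hy) hr1)
  have h2 : dist z b ≤ r := Metric.mem_closedBall.mp hz
  have h3 : dist (g • a) b ≤ dist (g • a) (g • y) + dist (g • y) b := dist_triangle _ _ _
  rw [heq] at h3 h1
  rw [dist_comm (g • a) z] at h3
  linarith

/-- The state of the construction at level n. -/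
def Good (W : Set K) (γ : ℕ → Γ) (n : ℕ) (p : (ℕ → K) × ℝ) : Prop :=
  0 < p.2 ∧ p.2 ≤ (1 / 2) ^ n ∧ (∀ k < 2 ^ n, p.1 k ∉ W) ∧
  ∀ i < n, ∀ k < 2 ^ n, ∀ l < 2 ^ n, k ≠ l → ∀ y ∈ Metric.closedBall (p.1 k) p.2,
    ∀ z ∈ Metric.closedBall (p.1 l) p.2, γ i • y ≠ z

theorem good_step [Nonempty K] (W : Set K) (hW : ∀ x ∉ W, ∀ U : Set K, IsOpen U → x ∈ U → ¬ (U ∩ Wᶜ).Countable)
    (γ : ℕ → Γ) (n : ℕ) (p : (ℕ → K) × ℝ) (hp : Good W γ n p) :
    ∃ q : (ℕ → K) × ℝ, Good W γ (n + 1) q ∧
      ∀ k < 2 ^ (n + 1), Metric.closedBall (q.1 k) q.2 ⊆ Metric.closedBall (p.1 (k / 2)) p.2 := by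
  classical
  obtain ⟨hp0, hp1, hpW, hps⟩ := hp
  have hS : ∀ k < 2 ^ (n + 1), ¬ (Metric.ball (p.1 (k / 2)) (p.2 / 2) ∩ Wᶜ).Countable := by
    intro k hk
    refine hW _ (hpW _ ?_) _ Metric.isOpen_ball (Metric.mem_ball_self (by linarith))
    rw [pow_succ] at hk
    omega
  obtain ⟨x, hx⟩ := choose_points (Γ := Γ)
    (fun k => Metric.ball (p.1 (k / 2)) (p.2 / 2) ∩ Wᶜ) (2 ^ (n + 1)) hS
  have hsep : ∀ᶠ r in 𝓝[>] (0 : ℝ), ∀ i ∈ Finset.range (n + 1), ∀ k ∈ Finset.range (2 ^ (n + 1)),
      ∀ l ∈ Finset.range (2 ^ (n + 1)), k ≠ l → ∀ y ∈ Metric.closedBall (x k) r,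
      ∀ z ∈ Metric.closedBall (x l) r, γ i • y ≠ z := by
    refine (Filter.eventually_all_finset _).mpr (fun i _ => ?_)
    refine (Filter.eventually_all_finset _).mpr (fun k hk => ?_)
    refine (Filter.eventually_all_finset _).mpr (fun l hl => ?_)
    by_cases hkl : k = l
    · exact Filter.Eventually.of_forall (fun r h => absurd hkl h)
    · have hne : γ i • x k ≠ x l := by
        intro heq
        rcases lt_or_gt_of_ne hkl with h | h
        · exact (hx l (Finset.mem_range.mp hl)).2 k h ⟨γ i, heq⟩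
        · refine (hx k (Finset.mem_range.mp hk)).2 l h ⟨(γ i)⁻¹, ?_⟩
          simp only
          rw [← heq, inv_smul_smul]
      filter_upwards [sep_radius (γ i) (x k) (x l) hne] with r hr _
      exact hr
  have hsmall : ∀ᶠ r in 𝓝[>] (0 : ℝ), r ∈ Set.Ioo (0 : ℝ) (min (p.2 / 2) ((1 / 2) ^ (n + 1))) :=
    Ioo_mem_nhdsGT (lt_min (by linarith) (by positivity))
  obtain ⟨r, hr1, hr2⟩ := (hsep.and hsmall).exists
  refine ⟨(x, r), ⟨hr2.1, le_of_lt (lt_of_lt_of_le hr2.2 (min_le_right _ _)), ?_, ?_⟩, ?_⟩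
  · intro k hk
    exact (hx k hk).1.2
  · intro i hi k hk l hl hkl
    exact hr1 i (Finset.mem_range.mpr hi) k (Finset.mem_range.mpr hk) l (Finset.mem_range.mpr hl) hkl
  · intro k hk y hy
    have h1 := Metric.mem_ball.mp (hx k hk).1.1
    have h2 := Metric.mem_closedBall.mp hy
    have h3 : r < p.2 / 2 := lt_of_lt_of_le hr2.2 (min_le_left _ _)
    rw [Metric.mem_closedBall]
    have h4 := dist_triangle y (x k) (p.1 (k / 2))
    simp only at h2
    linarith

theorem exists_perfect_transversal (Γ K : Type) [Group Γ] [Countable Γ] [MetricSpace K]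
    [CompactSpace K] [Uncountable K] [MulAction Γ K] [ContinuousConstSMul Γ K] :
    ∃ P : Set K, IsCompact P ∧ ¬ P.Countable ∧
      ∀ x ∈ P, ∀ y ∈ P, y ∈ MulAction.orbit Γ x → x = y := by
  classical
  obtain ⟨W, hWc, ⟨x0, hx0⟩, hW⟩ := condensation (K := K)
  obtain ⟨γ, hγ⟩ := exists_surjective_nat Γ
  have hbase : Good W γ 0 ((fun _ => x0), 1) := by
    refine ⟨one_pos, by simp, fun k _ => hx0, ?_⟩
    intro i hi
    omega
  have hstep : ∀ n, ∀ p : {p : (ℕ → K) × ℝ // Good W γ n p},
      ∃ q : {q : (ℕ → K) × ℝ // Good W γ (n + 1) q},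
      ∀ k < 2 ^ (n + 1), Metric.closedBall (q.1.1 k) q.1.2 ⊆ Metric.closedBall (p.1.1 (k / 2)) p.1.2 := by
    intro n p
    obtain ⟨q, hq, hq2⟩ := good_step W hW γ n p.1 p.2
    exact ⟨⟨q, hq⟩, hq2⟩
  choose step hstep using hstep
  let F : (n : ℕ) → {p : (ℕ → K) × ℝ // Good W γ n p} := fun n =>
    Nat.rec (motive := fun n => {p : (ℕ → K) × ℝ // Good W γ n p}) ⟨_, hbase⟩ (fun n p => step n p) n
  have hF : ∀ n, ∀ k < 2 ^ (n + 1), Metric.closedBall ((F (n + 1)).1.1 k) (F (n + 1)).1.2 ⊆
      Metric.closedBall ((F n).1.1 (k / 2)) (F n).1.2 := fun n => hstep n (F n)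
  let B : (ℕ → Bool) → ℕ → Set K := fun a n =>
    Metric.closedBall ((F n).1.1 (node a n)) (F n).1.2
  have hB : ∀ a n, B a (n + 1) ⊆ B a n := by
    intro a n
    have h := hF n (node a (n + 1)) (node_lt a (n + 1))
    rw [node_half] at h
    exact h
  have hne : ∀ a, (⋂ n, B a n).Nonempty := by
    intro a
    refine IsCompact.nonempty_iInter_of_sequence_nonempty_isCompact_isClosed (B a) (hB a) ?_ ?_ ?_
    · intro n
      exact ⟨_, Metric.mem_closedBall_self (F n).2.1.le⟩
    · exact (Metric.isClosed_closedBall).isCompact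
    · intro n
      exact Metric.isClosed_closedBall
  choose f hf using hne
  have hfB : ∀ a n, f a ∈ B a n := fun a n => Set.mem_iInter.mp (hf a) n
  have hcont : Continuous f := by
    rw [continuous_iff_continuousAt]
    intro a
    rw [Metric.continuousAt_iff']
    intro ε hε
    obtain ⟨n, hn⟩ := exists_pow_lt_of_lt_one (show (0 : ℝ) < ε / 2 by linarith)
      (show (1 / 2 : ℝ) < 1 by norm_num)
    have hev : ∀ᶠ b in 𝓝 a, ∀ i ∈ Finset.range n, b i = a i := by
      refine (Filter.eventually_all_finset _).mpr (fun i _ => ?_)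
      have h := (continuous_apply (A := fun _ : ℕ => Bool) i).tendsto a
      rw [show 𝓝 (a i) = pure (a i) from congrFun (nhds_discrete Bool) (a i)] at h
      have h2 : ({a i} : Set Bool) ∈ (pure (a i) : Filter Bool) := Filter.mem_pure.mpr rfl
      filter_upwards [h h2] with b hb
      exact hb
    filter_upwards [hev] with b hb
    have hnode : node b n = node a n := node_congr b a n (fun i hi => hb i (Finset.mem_range.mpr hi))
    have h1 := hfB a n
    have h2 := hfB b n
    simp only [B] at h1 h2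
    rw [hnode] at h2
    rw [Metric.mem_closedBall] at h1 h2
    have h3 := dist_triangle_right (f b) (f a) ((F n).1.1 (node a n))
    have h4 := (F n).2.2.1
    linarith
  have horb : ∀ a b, f b ∈ MulAction.orbit Γ (f a) → a = b := by
    intro a b hab
    by_contra hne
    obtain ⟨g, hg⟩ := hab
    obtain ⟨i, rfl⟩ := hγ g
    obtain ⟨j, hj⟩ := Function.ne_iff.mp hne
    let n := max i j + 1
    have hnode : node a n ≠ node b n := by
      intro h
      exact hj (node_inj a b n h j (by omega))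
    exact (F n).2.2.2.2 i (by omega) (node a n) (node_lt a n) (node b n) (node_lt b n) hnode
      (f a) (hfB a n) (f b) (hfB b n) hg
  have hinj : Function.Injective f := by
    intro a b hab
    exact horb a b (by rw [hab]; exact MulAction.mem_orbit_self _)
  refine ⟨Set.range f, isCompact_range hcont, ?_, ?_⟩
  · intro hc
    have h1 : Countable (ℕ → Bool) := by
      have : Countable (Set.range f) := hc.to_subtype
      exact (Set.rangeFactorization_injective.mpr hinj).countable
    obtain ⟨e, he⟩ := exists_surjective_nat (ℕ → Bool)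
    obtain ⟨n, hn⟩ := he (fun n => !(e n n))
    have h2 : e n n = !(e n n) := congrFun hn n
    cases h3 : e n n <;> rw [h3] at h2 <;> simp at h2
  · rintro _ ⟨a, rfl⟩ _ ⟨b, rfl⟩ hab
    rw [horb a b hab]

end

end Pool.Agent.Helper64.CR
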